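import Mathlib

set_option autoImplicit false

namespace Pool.Agent.Results.MP_78c384_co.NotMaxTolerance

open MeasureTheory

/-- The length of the intersection of the closed intervals `[L x, R x]` and `[L y, R y]`
(Lebesgue measure, so `0` when the intersection is empty). -/
noncomputable def overlap {V : Type} (L R : V → ℝ) (x y : V) : ℝ :=
  (volume (Set.Icc (L x) (R x) ∩ Set.Icc (L y) (R y))).toReal

/-- `G` is a bounded tolerance graph: every vertex `v` has a closed interval `[L v, R v]` and a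
tolerance `t v` with `0 < t v ≤ R v - L v`, and distinct `x`, `y` are adjacent iff the length of the
intersection of their intervals is at least `min (t x) (t y)`. -/
def IsBoundedToleranceGraph {V : Type} (G : SimpleGraph V) : Prop :=
  ∃ L R t : V → ℝ, (∀ v, L v ≤ R v) ∧ (∀ v, 0 < t v) ∧ (∀ v, t v ≤ R v - L v) ∧
    ∀ x y, x ≠ y → (G.Adj x y ↔ min (t x) (t y) ≤ overlap L R x y)

/-- `G` is a max-tolerance graph: every vertex `v` has a closed interval `[L v, R v]` and a
tolerance `t v > 0` (no upper bound on `t v`), and distinct `x`, `y` are adjacent iff the length of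
the intersection of their intervals is at least `max (t x) (t y)`. -/
def IsMaxToleranceGraph {V : Type} (G : SimpleGraph V) : Prop :=
  ∃ L R t : V → ℝ, (∀ v, L v ≤ R v) ∧ (∀ v, 0 < t v) ∧
    ∀ x y, x ≠ y → (G.Adj x y ↔ max (t x) (t y) ≤ overlap L R x y)

lemma overlap_eq {V : Type} (L R : V → ℝ) (x y : V) :
    overlap L R x y = max (min (R x) (R y) - max (L x) (L y)) 0 := by
  unfold overlap
  rw [Set.Icc_inter_Icc, Real.volume_Icc]
  exact ENNReal.toReal_ofReal' (r := _)

/-- top-`k` subsets exist -/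
lemma exists_top {α : Type} [DecidableEq α] (f : α → ℝ) (S : Finset α) (k : ℕ) (hk : k ≤ S.card) :
    ∃ S₁ ⊆ S, S₁.card = k ∧ ∀ a ∈ S₁, ∀ a' ∈ S \ S₁, f a' ≤ f a := by
  induction k with
  | zero => exact ⟨∅, by simp, by simp, by simp⟩
  | succ k ih =>
    obtain ⟨S₁, hsub, hcard, htop⟩ := ih (by omega)
    have hne : (S \ S₁).Nonempty := by
      rw [← Finset.card_pos, Finset.card_sdiff_of_subset hsub]
      omega
    obtain ⟨x, hx, hmax⟩ := Finset.exists_max_image (S \ S₁) f hne
    have hx' := Finset.mem_sdiff.mp hx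
    refine ⟨insert x S₁, ?_, ?_, ?_⟩
    · intro y hy
      rcases Finset.mem_insert.mp hy with h | h
      · rw [h]; exact hx'.1
      · exact hsub h
    · rw [Finset.card_insert_of_notMem hx'.2, hcard]
    · intro a ha a' ha'
      have ha'' : a' ∈ S \ S₁ := by
        rw [Finset.mem_sdiff] at ha' ⊢
        exact ⟨ha'.1, fun h => ha'.2 (Finset.mem_insert_of_mem h)⟩
      rcases Finset.mem_insert.mp ha with h | h
      · rw [h]; exact hmax a' ha''
      · exact htop a h a' ha''

/-- Two families of `2k` reals contain subfamilies of size `k`, one entirely below the other. -/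
lemma halving {α β : Type} [DecidableEq α] [DecidableEq β] (f : α → ℝ) (g : β → ℝ)
    (S : Finset α) (T : Finset β) (k : ℕ) (hk : 0 < k) (hS : S.card = 2 * k) (hT : T.card = 2 * k) :
    ∃ S' ⊆ S, ∃ T' ⊆ T, S'.card = k ∧ T'.card = k ∧
      ((∀ a ∈ S', ∀ b ∈ T', g b ≤ f a) ∨ (∀ a ∈ S', ∀ b ∈ T', f a ≤ g b)) := by
  obtain ⟨S₁, hS₁, hS₁c, hS₁t⟩ := exists_top f S k (by omega)
  obtain ⟨T₁, hT₁, hT₁c, hT₁t⟩ := exists_top g T k (by omega)
  obtain ⟨a₀, ha₀, ha₀m⟩ := Finset.exists_min_image S₁ f (by rw [← Finset.card_pos]; omega)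
  obtain ⟨b₀, hb₀, hb₀m⟩ := Finset.exists_min_image T₁ g (by rw [← Finset.card_pos]; omega)
  have hSc : (S \ S₁).card = k := by rw [Finset.card_sdiff_of_subset hS₁]; omega
  have hTc : (T \ T₁).card = k := by rw [Finset.card_sdiff_of_subset hT₁]; omega
  rcases le_total (g b₀) (f a₀) with h | h
  · refine ⟨S₁, hS₁, T \ T₁, Finset.sdiff_subset, hS₁c, hTc, Or.inl ?_⟩
    intro a ha b hb
    exact (hT₁t b₀ hb₀ b hb).trans (h.trans (ha₀m a ha))
  · refine ⟨S \ S₁, Finset.sdiff_subset, T₁, hT₁, hSc, hT₁c, Or.inr ?_⟩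
    intro a ha b hb
    exact (hS₁t a₀ ha₀ a ha).trans (h.trans (hb₀m b hb))

/-- If `{a₁, a₂}` lies entirely above or below `{b₁, b₂}` then both exchange inequalities hold. -/
lemma exch_sep (a₁ a₂ b₁ b₂ : ℝ)
    (h : (b₁ ≤ a₁ ∧ b₁ ≤ a₂ ∧ b₂ ≤ a₁ ∧ b₂ ≤ a₂) ∨ (a₁ ≤ b₁ ∧ a₁ ≤ b₂ ∧ a₂ ≤ b₁ ∧ a₂ ≤ b₂)) :
    max a₁ a₂ + max b₁ b₂ ≤ max a₁ b₁ + max a₂ b₂ ∧
    max a₁ a₂ + max b₁ b₂ ≤ max a₁ b₂ + max a₂ b₁ := by
  rcases h with ⟨h1, h2, h3, h4⟩ | ⟨h1, h2, h3, h4⟩
  · rw [max_eq_left h1, max_eq_left h4, max_eq_left h3, max_eq_left h2]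
    rcases le_total a₁ a₂ with h5 | h5 <;> rcases le_total b₁ b₂ with h6 | h6 <;>
      simp only [max_eq_left, max_eq_right, h5, h6] <;> constructor <;> linarith
  · rw [max_eq_right h1, max_eq_right h4, max_eq_right h3, max_eq_right h2]
    rcases le_total a₁ a₂ with h5 | h5 <;> rcases le_total b₁ b₂ with h6 | h6 <;>
      simp only [max_eq_left, max_eq_right, h5, h6] <;> constructor <;> linarith

/-- In general at least one of the two exchange inequalities holds. -/
lemma exch_gen (a₁ a₂ b₁ b₂ : ℝ) :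
    max a₁ a₂ + max b₁ b₂ ≤ max a₁ b₁ + max a₂ b₂ ∨
    max a₁ a₂ + max b₁ b₂ ≤ max a₁ b₂ + max a₂ b₁ := by
  rcases le_total a₁ a₂ with h1 | h1 <;> rcases le_total b₁ b₂ with h2 | h2
  · right
    rw [max_eq_right h1, max_eq_right h2]
    have := le_max_right a₁ b₂
    have := le_max_left a₂ b₁
    linarith
  · left
    rw [max_eq_right h1, max_eq_left h2]
    have := le_max_right a₁ b₁
    have := le_max_left a₂ b₂
    linarith
  · left
    rw [max_eq_left h1, max_eq_right h2]
    have := le_max_left a₁ b₁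
    have := le_max_right a₂ b₂
    linarith
  · right
    rw [max_eq_left h1, max_eq_left h2]
    have := le_max_left a₁ b₂
    have := le_max_right a₂ b₁
    linarith

/-- `K_{8,8}` is not a max-tolerance graph. -/
lemma not_max : ¬ IsMaxToleranceGraph (completeBipartiteGraph (Fin 8) (Fin 8)) := by
  rintro ⟨L, R, t, -, ht, hadj⟩
  -- reformulate adjacency
  set m : Fin 8 ⊕ Fin 8 → Fin 8 ⊕ Fin 8 → ℝ := fun x y =>
    max (L x) (L y) + max (-R x) (-R y) + max (t x) (t y) with hm
  have hneg : ∀ x y, max (-R x) (-R y) = - min (R x) (R y) := fun x y => max_neg_neg (R x) (R y)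
  have key : ∀ x y, x ≠ y → ((completeBipartiteGraph (Fin 8) (Fin 8)).Adj x y ↔ m x y ≤ 0) := by
    intro x y hxy
    rw [hadj x y hxy, overlap_eq]
    have h1 : 0 < max (t x) (t y) := lt_of_lt_of_le (ht x) (le_max_left _ _)
    simp only [hm, hneg]
    constructor
    · intro h
      rcases le_max_iff.mp h with h2 | h2
      · linarith
      · linarith
    · intro h
      refine le_trans ?_ (le_max_left _ _)
      linarith
  have hA : ∀ i j : Fin 8, i ≠ j → 0 < m (Sum.inl i) (Sum.inl j) := by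
    intro i j hij
    have h := key (Sum.inl i) (Sum.inl j) (fun h => hij (Sum.inl_injective h))
    by_contra hcon
    have := h.mpr (not_lt.mp hcon)
    simp [completeBipartiteGraph] at this
  have hB : ∀ i j : Fin 8, i ≠ j → 0 < m (Sum.inr i) (Sum.inr j) := by
    intro i j hij
    have h := key (Sum.inr i) (Sum.inr j) (fun h => hij (Sum.inr_injective h))
    by_contra hcon
    have := h.mpr (not_lt.mp hcon)
    simp [completeBipartiteGraph] at this
  have hAB : ∀ i j : Fin 8, m (Sum.inl i) (Sum.inr j) ≤ 0 := by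
    intro i j
    have h := key (Sum.inl i) (Sum.inr j) (by simp)
    exact h.mp (by simp [completeBipartiteGraph])
  -- two halvings, for the coordinates `L` and `-R`
  obtain ⟨S, -, T, -, hS, hT, hL⟩ := halving (fun i : Fin 8 => L (Sum.inl i))
    (fun j : Fin 8 => L (Sum.inr j)) Finset.univ Finset.univ 4 (by norm_num) (by simp) (by simp)
  obtain ⟨S', hS'S, T', hT'T, hS', hT', hR⟩ := halving (fun i : Fin 8 => -R (Sum.inl i))
    (fun j : Fin 8 => -R (Sum.inr j)) S T 2 (by norm_num) hS hT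
  obtain ⟨a₁, a₂, ha, hSe⟩ := Finset.card_eq_two.mp hS'
  obtain ⟨b₁, b₂, hb, hTe⟩ := Finset.card_eq_two.mp hT'
  have ma₁ : a₁ ∈ S' := by rw [hSe]; simp
  have ma₂ : a₂ ∈ S' := by rw [hSe]; simp
  have mb₁ : b₁ ∈ T' := by rw [hTe]; simp
  have mb₂ : b₂ ∈ T' := by rw [hTe]; simp
  have eL := exch_sep (L (Sum.inl a₁)) (L (Sum.inl a₂)) (L (Sum.inr b₁)) (L (Sum.inr b₂)) (by
    rcases hL with h | h
    · exact Or.inl ⟨h _ (hS'S ma₁) _ (hT'T mb₁), h _ (hS'S ma₂) _ (hT'T mb₁),
        h _ (hS'S ma₁) _ (hT'T mb₂), h _ (hS'S ma₂) _ (hT'T mb₂)⟩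
    · exact Or.inr ⟨h _ (hS'S ma₁) _ (hT'T mb₁), h _ (hS'S ma₁) _ (hT'T mb₂),
        h _ (hS'S ma₂) _ (hT'T mb₁), h _ (hS'S ma₂) _ (hT'T mb₂)⟩)
  have eR := exch_sep (-R (Sum.inl a₁)) (-R (Sum.inl a₂)) (-R (Sum.inr b₁)) (-R (Sum.inr b₂)) (by
    rcases hR with h | h
    · exact Or.inl ⟨h _ ma₁ _ mb₁, h _ ma₂ _ mb₁, h _ ma₁ _ mb₂, h _ ma₂ _ mb₂⟩
    · exact Or.inr ⟨h _ ma₁ _ mb₁, h _ ma₁ _ mb₂, h _ ma₂ _ mb₁, h _ ma₂ _ mb₂⟩)
  have et := exch_gen (t (Sum.inl a₁)) (t (Sum.inl a₂)) (t (Sum.inr b₁)) (t (Sum.inr b₂))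
  have pA := hA a₁ a₂ ha
  have pB := hB b₁ b₂ hb
  have p11 := hAB a₁ b₁
  have p12 := hAB a₁ b₂
  have p21 := hAB a₂ b₁
  have p22 := hAB a₂ b₂
  simp only [hm] at pA pB p11 p12 p21 p22
  rcases et with h | h
  · linarith [eL.1, eR.1]
  · linarith [eL.2, eR.2]

/-- `K_{8,8}` is a bounded tolerance graph. -/
lemma is_bounded : IsBoundedToleranceGraph (completeBipartiteGraph (Fin 8) (Fin 8)) := by
  refine ⟨Sum.elim (fun i => (i : ℝ)) (fun j => (j : ℝ) - 20),
    Sum.elim (fun i => (i : ℝ) + 1 / 2) (fun j => (j : ℝ) + 20),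
    Sum.elim (fun _ => 1 / 2) (fun _ => 40), ?_, ?_, ?_, ?_⟩
  · rintro (i | j) <;> simp <;> linarith
  · rintro (i | j) <;> simp
  · rintro (i | j)
    · simp
    · simp; norm_num
  · rintro (i | i) (j | j) hij
    · have hne : (i : ℕ) ≠ j := fun h => hij (by rw [Fin.ext h])
      rw [overlap_eq]
      simp only [Sum.elim_inl, completeBipartiteGraph]
      simp only [Sum.isLeft_inl, Sum.isRight_inl, min_self]
      constructor
      · intro h; simp at h
      · intro h
        exfalso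
        rcases lt_or_gt_of_ne hne with h1 | h1
        · have h2 : ((i : ℕ) : ℝ) + 1 ≤ ((j : ℕ) : ℝ) := by exact_mod_cast h1
          rcases le_max_iff.mp h with h3 | h3
          · have := min_le_left (((i : ℕ) : ℝ) + 1 / 2) (((j : ℕ) : ℝ) + 1 / 2)
            have := le_max_right ((i : ℕ) : ℝ) ((j : ℕ) : ℝ)
            linarith
          · linarith
        · have h2 : ((j : ℕ) : ℝ) + 1 ≤ ((i : ℕ) : ℝ) := by exact_mod_cast h1
          rcases le_max_iff.mp h with h3 | h3
          · have := min_le_right (((i : ℕ) : ℝ) + 1 / 2) (((j : ℕ) : ℝ) + 1 / 2)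
            have := le_max_left ((i : ℕ) : ℝ) ((j : ℕ) : ℝ)
            linarith
          · linarith
    · rw [overlap_eq]
      simp only [Sum.elim_inl, Sum.elim_inr, completeBipartiteGraph]
      simp only [Sum.isLeft_inl, Sum.isRight_inr, true_and]
      have hi0 : (0 : ℝ) ≤ ((i : ℕ) : ℝ) := Nat.cast_nonneg _
      have hj0 : (0 : ℝ) ≤ ((j : ℕ) : ℝ) := Nat.cast_nonneg _
      have hi8 : ((i : ℕ) : ℝ) ≤ 8 := by exact_mod_cast i.2.le
      have hj8 : ((j : ℕ) : ℝ) ≤ 8 := by exact_mod_cast j.2.le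
      constructor
      · intro _
        refine le_trans (min_le_left _ _) (le_trans ?_ (le_max_left _ _))
        rw [min_eq_left (by linarith), max_eq_left (by linarith)]
        linarith
      · intro _; simp
    · rw [overlap_eq]
      simp only [Sum.elim_inl, Sum.elim_inr, completeBipartiteGraph]
      simp only [Sum.isLeft_inl, Sum.isRight_inr, true_and]
      have hi0 : (0 : ℝ) ≤ ((i : ℕ) : ℝ) := Nat.cast_nonneg _
      have hj0 : (0 : ℝ) ≤ ((j : ℕ) : ℝ) := Nat.cast_nonneg _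
      have hi8 : ((i : ℕ) : ℝ) ≤ 8 := by exact_mod_cast i.2.le
      have hj8 : ((j : ℕ) : ℝ) ≤ 8 := by exact_mod_cast j.2.le
      constructor
      · intro _
        refine le_trans (min_le_right _ _) (le_trans ?_ (le_max_left _ _))
        rw [min_eq_right (by linarith), max_eq_right (by linarith)]
        linarith
      · intro _; simp
    · have hne : (i : ℕ) ≠ j := fun h => hij (by rw [Fin.ext h])
      rw [overlap_eq]
      simp only [Sum.elim_inr, completeBipartiteGraph]
      simp only [min_self]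
      constructor
      · intro h; simp at h
      · intro h
        exfalso
        rcases lt_or_gt_of_ne hne with h1 | h1
        · have h2 : ((i : ℕ) : ℝ) + 1 ≤ ((j : ℕ) : ℝ) := by exact_mod_cast h1
          rcases le_max_iff.mp h with h3 | h3
          · have := min_le_left (((i : ℕ) : ℝ) + 20) (((j : ℕ) : ℝ) + 20)
            have := le_max_right (((i : ℕ) : ℝ) - 20) (((j : ℕ) : ℝ) - 20)
            linarith
          · linarith
        · have h2 : ((j : ℕ) : ℝ) + 1 ≤ ((i : ℕ) : ℝ) := by exact_mod_cast h1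
          rcases le_max_iff.mp h with h3 | h3
          · have := min_le_right (((i : ℕ) : ℝ) + 20) (((j : ℕ) : ℝ) + 20)
            have := le_max_left (((i : ℕ) : ℝ) - 20) (((j : ℕ) : ℝ) - 20)
            linarith
          · linarith

/-- Not every (finite) bounded tolerance graph is a max-tolerance graph: the complete bipartite
graph `K_{8,8}` is a bounded tolerance graph but admits no max-tolerance representation. -/
theorem result :
    IsBoundedToleranceGraph (completeBipartiteGraph (Fin 8) (Fin 8)) ∧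
      ¬ IsMaxToleranceGraph (completeBipartiteGraph (Fin 8) (Fin 8)) :=
  ⟨is_bounded, not_max⟩

end Pool.Agent.Results.MP_78c384_co.NotMaxTolerance
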